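import Pool.Agent.Helper60.EV2.Exist
import Pool.Agent.Helper2.PD.Faces

/-!
# Plane diagrams, Seifert circles, the inequality of Q1 (MP_ea8a26_gt, project EV3)

A shadow `G : Sh P` (`Pool.Agent.Helper85.EV2.Exp`) is a link diagram without the signs of its crossings: `P` is the finite set of the passages of the link through the crossings, `nxt i` the
next passage along the link, `op i` the other passage of the same crossing; `lf i = true` if the other strand crosses from the left to the right, seen in the direction of travel. The edge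
`i` goes from the passage `i` to the passage `nxt i`. A diagram `Dg G` gives a status to every crossing: positive, negative or smoothed (in the oriented way).
-/

set_option autoImplicit false

namespace Pool.Agent.Helper43.Pln

open Polynomial Pool.Agent.Helper85.Exp Pool.Agent.Helper60.EV2 Pool.Agent.Helper2.PD

variable {P : Type}

/-- `G` is a connected diagram in the plane (or the sphere): every passage belongs to a crossing (`op i ≠ i`), `G` is connected (`Conn`), and the number of faces is
the number of crossings plus two (`Planar`). -/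
structure Plane (G : Sh P) : Prop where
  cross : ∀ i, G.op i ≠ i
  conn : Conn G
  genus : Planar G

/-- The number of crossings. -/
noncomputable def crossings (G : Sh P) : ℕ := Nat.card {p : P // G.lf p = true}

theorem seifert_left (G : Sh P) (i : P) : G.nxt.symm (G.op (G.op (G.nxt i))) = i := by
  rw [G.op_op, Equiv.symm_apply_apply]

theorem seifert_right (G : Sh P) (i : P) : G.op (G.nxt (G.nxt.symm (G.op i))) = i := by
  rw [Equiv.apply_symm_apply, G.op_op]

/-- Smoothing all crossings: the edge `i` is followed by the edge `op (nxt i)`. -/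
def seifert (G : Sh P) : Equiv.Perm P :=
  ⟨fun i => G.op (G.nxt i), fun i => G.nxt.symm (G.op i), seifert_left G, seifert_right G⟩

/-- The number of Seifert circles. -/
noncomputable def circles (G : Sh P) : ℕ := Nat.card (Quotient (Equiv.Perm.SameCycle.setoid (seifert G)))

/-- The number of components of the link: the number of cycles of `nxt`. -/
noncomputable def numComponents (G : Sh P) : ℕ := Nat.card (Quotient (Equiv.Perm.SameCycle.setoid G.nxt))

/-- The diagram all of whose crossings are positive. -/
def allPos (G : Sh P) : Dg G := ⟨fun _ => .pos, fun _ => rfl⟩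

/-- The coefficient `a_k = c_{2k+m-1}` of the Laurent polynomial `t^{(1-m)/2} Q(√t)`, where `Q = ∑ c_j z^j` and `m` is the number of components. -/
noncomputable def coeffX (Q : ℤ[X]) (m : ℕ) (k : ℤ) : ℤ :=
  if 0 ≤ 2 * k + m - 1 then Q.coeff (2 * k + m - 1).toNat else 0

/-- The inequality `a_k ^ 2 ≥ a_{k+1} a_{k-1}` for all integers `k`, for the link of the positive diagram on `G`; `nab` is the Conway polynomial. -/
def LogConcave (G : Sh P) (nab : Dg G → ℤ[X]) : Prop :=
  ∀ k : ℤ, coeffX (nab (allPos G)) (numComponents G) (k + 1) * coeffX (nab (allPos G)) (numComponents G) (k - 1) ≤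
    coeffX (nab (allPos G)) (numComponents G) k ^ 2

theorem lc_int {Q : ℤ[X]} (hQ : ∀ i : ℕ, Q.coeff i * Q.coeff (i + 4) ≤ Q.coeff (i + 2) ^ 2) (m : ℕ) (k : ℤ) :
    coeffX Q m (k + 1) * coeffX Q m (k - 1) ≤ coeffX Q m k ^ 2 := by
  by_cases h1 : 0 ≤ 2 * (k - 1) + m - 1
  · obtain ⟨i, hi⟩ : ∃ i : ℕ, 2 * (k - 1) + m - 1 = i := Int.eq_ofNat_of_zero_le h1
    have e1 : coeffX Q m (k - 1) = Q.coeff i := by
      unfold coeffX
      rw [if_pos h1, hi, Int.toNat_natCast]
    have e2 : coeffX Q m k = Q.coeff (i + 2) := by
      unfold coeffX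
      rw [if_pos (by omega)]
      congr 1
      omega
    have e3 : coeffX Q m (k + 1) = Q.coeff (i + 4) := by
      unfold coeffX
      rw [if_pos (by omega)]
      congr 1
      omega
    rw [e1, e2, e3, mul_comm]
    exact hQ i
  · have e1 : coeffX Q m (k - 1) = 0 := by
      unfold coeffX
      rw [if_neg h1]
    rw [e1, mul_zero]
    exact sq_nonneg _

theorem nonempty_of {G : Sh P} (h : Plane G) : Nonempty P := by
  by_contra hcon
  rw [not_nonempty_iff] at hcon
  have h1 := h.genus
  unfold Planar at h1
  have h2 : IsEmpty (Face G) := by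
    refine ⟨fun f => ?_⟩
    induction f using Quot.ind with
    | mk d => exact hcon.false d.1
  rw [Nat.card_of_isEmpty, Nat.card_of_isEmpty] at h1
  omega

/-- Every edge has a left-out or a right-out side, so there are two passages per crossing. -/
theorem card_eq [Fintype P] {G : Sh P} (h : ∀ i, G.op i ≠ i) : Nat.card P = 2 * crossings G := card_P G h

theorem finite_sh (m : ℕ) : Finite (Sh (Fin m)) := by
  refine Finite.of_injective (fun G : Sh (Fin m) => (G.nxt, G.op, G.lf)) ?_
  rintro ⟨a, b, c, d, e⟩ ⟨a', b', c', d', e'⟩ h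
  simp only [Prod.mk.injEq] at h
  obtain ⟨rfl, rfl, rfl⟩ := h
  rfl

/-- Diagrams with few crossings are finitely many. -/
theorem finite_few (m₀ : ℕ) : {x : Σ m : ℕ, Sh (Fin m) | (∀ i, x.2.op i ≠ i) ∧ crossings x.2 < m₀}.Finite := by
  have : ∀ m : ℕ, Finite (Sh (Fin m)) := finite_sh
  let f : (Σ m : Fin (2 * m₀), Sh (Fin m)) → Σ m : ℕ, Sh (Fin m) := fun x => ⟨x.1, x.2⟩
  refine (Set.finite_range f).subset ?_
  rintro ⟨m, G⟩ ⟨h, h2⟩
  have h3 := card_eq h
  rw [Nat.card_eq_fintype_card, Fintype.card_fin] at h3
  simp only at h3 h2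
  exact ⟨⟨⟨m, by omega⟩, G⟩, rfl⟩

end Pool.Agent.Helper43.Pln
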