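import Pool.Agent.Helper60.EV2.Exist

/-!
# Connected planar shadows of oriented link diagrams (MP_ea8a26_gt, project EV3)

A shadow (`Sh`, `Pool.Agent.Helper85.EV2.Exp`) is given by the finite set `P` of the passages of the strands through the crossings: `nxt i` is the next passage along the link, `op i` the
other passage of the same crossing, and `lf i = true` means that the other strand crosses from the left to the right, seen in the direction of travel. A diagram `Dg` on the shadow is given
by the status of every crossing: positive, negative or smoothed (in the oriented way). `Cs` (`Pool.Agent.Helper60.EV2.Exist`) are the properties of the Conway polynomial.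

The edge `i` is the edge which enters the passage `i`; the edge `nxt i` leaves it. At the crossing of the passages `p` (with `lf p = true`) and `q = op p` the edge `p` comes in on the
right, the edge `q` comes in on the left, the edge `nxt p` goes out on the left and the edge `nxt q` goes out on the right, all seen in the direction of travel.
-/

set_option autoImplicit false

namespace Pool.Agent.Helper43.PD

open Polynomial Pool.Agent.Helper85.Exp Pool.Agent.Helper60.EV2

variable {P : Type}

/-- The four corners at the crossing of `p` and `op p`: in each of them two sides of edges meet. `(i, true)` is the left side and `(i, false)` the right side of the edge `i`. -/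
inductive Corner (G : Sh P) : P × Bool → P × Bool → Prop
  /-- between the left incoming and the left outgoing edge -/
  | west (p : P) : G.lf p = true → Corner G (G.op p, true) (G.nxt p, true)
  /-- between the right incoming and the right outgoing edge -/
  | east (p : P) : G.lf p = true → Corner G (p, false) (G.nxt (G.op p), false)
  /-- between the two incoming edges -/
  | south (p : P) : G.lf p = true → Corner G (G.op p, false) (p, true)
  /-- between the two outgoing edges -/
  | north (p : P) : G.lf p = true → Corner G (G.nxt p, false) (G.nxt (G.op p), true)

/-- The faces: the classes of the sides of the edges, where sides which meet in a corner are identified. -/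
def Face (G : Sh P) : Type := Quot (Corner G)

/-- The number of faces. -/
noncomputable def faces (G : Sh P) : ℕ := Nat.card (Face G)

/-- The number of crossings. -/
noncomputable def crossings (G : Sh P) : ℕ := Nat.card {p : P // G.lf p = true}

/-- The number of Seifert circles: the cycles of `i ↦ nxt (op i)`. -/
noncomputable def circles (G : Sh P) : ℕ := Nat.card (Quot fun i j : P => j = G.nxt (G.op i))

/-- The shadow is connected and lies in the sphere (Euler characteristic 2), and every passage belongs to a crossing. -/
structure Planar (G : Sh P) : Prop where
  cross : ∀ i, G.op i ≠ i
  conn : ∀ C : P → Prop, (∃ i, C i) → (∀ i, C (G.nxt i) ↔ C i) → (∀ i, C (G.op i) ↔ C i) → ∀ i, C i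
  euler : faces G = crossings G + 2

/-- The diagram all of whose crossings are positive. -/
def allPos (G : Sh P) : Dg G := ⟨fun _ => .pos, fun _ => rfl⟩

end Pool.Agent.Helper43.PD
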