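import Pool.Agent.Helper43.PD.Plane
import Pool.Agent.Helper60.PD.Full

/-!
# Draft of the result file (project EV3); `final` has a `sorry`, it is helper57's block (8)
-/

set_option autoImplicit false

namespace Pool.Agent.Helper43.PD.Draft3

open Polynomial Pool.Agent.Helper85.Exp Pool.Agent.Helper60.EV2 Pool.Agent.Helper43.Pln

/-- Block (8): to be proved by helper57 with exactly this statement. -/
theorem final (s : ℕ) : ∃ m₀ : ℕ, ∀ (P : Type) [Fintype P] (G : Sh P), Plane G → circles G ≤ s → m₀ ≤ crossings G →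
    ∀ nab : Dg G → ℤ[X], Cs nab → ∀ j : ℕ,
      (nab (allPos G)).coeff j * (nab (allPos G)).coeff (j + 4) ≤ (nab (allPos G)).coeff (j + 2) ^ 2 := by
  sorry

/-- **Main theorem.** -/
theorem result :
    (∀ (P : Type) [Fintype P] (G : Sh P), Plane G → ∃! nab : Dg G → ℤ[X], Cs nab) ∧
    ∀ s : ℕ,
      (∃ m₀ : ℕ, ∀ (P : Type) [Fintype P] (G : Sh P), Plane G → circles G ≤ s → m₀ ≤ crossings G →
        ∀ nab : Dg G → ℤ[X], Cs nab → LogConcave G nab) ∧
      {x : Σ m : ℕ, Sh (Fin m) | Plane x.2 ∧ circles x.2 ≤ s ∧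
        ∃ nab : Dg x.2 → ℤ[X], Cs nab ∧ ¬ LogConcave x.2 nab}.Finite := by
  refine ⟨fun P _ G h => ?_, fun s => ?_⟩
  · have := nonempty_of h
    exact Pool.Agent.Helper60.PD.exists_unique_nab h.conn h.cross h.genus
  · obtain ⟨m₀, hm₀⟩ := final s
    have h1 : ∀ (P : Type) [Fintype P] (G : Sh P), Plane G → circles G ≤ s → m₀ ≤ crossings G →
        ∀ nab : Dg G → ℤ[X], Cs nab → LogConcave G nab :=
      fun P _ G hG hs hm nab h k => lc_int (hm₀ P G hG hs hm nab h) _ k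
    refine ⟨⟨m₀, h1⟩, (finite_few m₀).subset ?_⟩
    rintro ⟨m, G⟩ ⟨hG, hs, nab, h, hlc⟩
    refine ⟨hG.cross, ?_⟩
    by_contra hm
    exact hlc (h1 _ G hG hs (not_lt.1 hm) nab h)

end Pool.Agent.Helper43.PD.Draft3
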