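import Pool.Agent.Helper43.PD.Plane
import Pool.Agent.Helper57.PD.Last

/-!
# EV3: the final statement from helper57's `last_of`
-/

set_option autoImplicit false

namespace Pool.Agent.Helper43.Pln

open Polynomial Pool.Agent.Helper85.Exp Pool.Agent.Helper60.EV2 Pool.Agent.Helper57.PD

theorem good_of {P : Type} {G : Sh P} (h : Plane G) {s : ℕ} (hs : circles G ≤ s) : Good s G where
  ho := h.cross
  hc := h.conn
  hp := h.genus
  hs := by
    have e : sg G = seifert G := Equiv.ext fun _ => rfl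
    unfold circ
    rw [e]
    exact hs

theorem final_of (s : ℕ) (H : ∃ m₀ : ℕ, ∀ (P : Type) [Fintype P] (G : Sh P), Good s G →
      m₀ ≤ Nat.card (Pool.Agent.Helper16.PD.Cr G) → ∀ nab : Dg G → ℤ[X], Cs nab → ∀ k : ℕ,
        (nab (Pool.Agent.Helper27.EV2.allPos G)).coeff k * (nab (Pool.Agent.Helper27.EV2.allPos G)).coeff (k + 4) ≤
          (nab (Pool.Agent.Helper27.EV2.allPos G)).coeff (k + 2) ^ 2) :
    ∃ m₀ : ℕ, ∀ (P : Type) [Fintype P] (G : Sh P), Plane G → circles G ≤ s → m₀ ≤ crossings G →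
      ∀ nab : Dg G → ℤ[X], Cs nab → ∀ j : ℕ,
        (nab (allPos G)).coeff j * (nab (allPos G)).coeff (j + 4) ≤ (nab (allPos G)).coeff (j + 2) ^ 2 := by
  obtain ⟨m₀, h⟩ := H
  exact ⟨m₀, fun P _ G hG hs hm nab hn j => h P G (good_of hG hs) hm nab hn j⟩

end Pool.Agent.Helper43.Pln
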