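import Pool.Agent.Helper43.PD.Defs

/-!
# EV3: abstract face structures, the Dehn matrix, time decompositions
-/

set_option autoImplicit false

namespace Pool.Agent.Helper43.PD

open Polynomial Pool.Agent.Helper85.Exp Pool.Agent.Helper60.EV2

variable {P : Type} {G : Sh P} {F : Type}

/-! ### Faces -/

/-- Left and right faces of the edges, with the four corner equations. At the crossing of `p` (`lf p = true`), `q = op p`:
west face `L q = L (nxt p)`, east face `R p = R (nxt q)`, south face `L p = R q`, north face `R (nxt p) = L (nxt q)`. -/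
structure FS (G : Sh P) (F : Type) where
  L : P → F
  R : P → F
  west : ∀ p, G.lf p = true → L (G.op p) = L (G.nxt p)
  east : ∀ p, G.lf p = true → R p = R (G.nxt (G.op p))
  south : ∀ p, G.lf p = true → R (G.op p) = L p
  north : ∀ p, G.lf p = true → R (G.nxt p) = L (G.nxt (G.op p))

/-- The faces of `G`. -/
def std (G : Sh P) : FS G (Face G) where
  L i := Quot.mk _ (i, true)
  R i := Quot.mk _ (i, false)
  west p h := Quot.sound (.west p h)
  east p h := Quot.sound (.east p h)
  south p h := Quot.sound (.south p h)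
  north p h := Quot.sound (.north p h)

/-- The faces at the crossing of `p`, `lf p = true`. -/
def FS.We (S : FS G F) (p : P) : F := S.L (G.nxt p)
def FS.Ea (S : FS G F) (p : P) : F := S.R p
def FS.So (S : FS G F) (p : P) : F := S.L p
def FS.No (S : FS G F) (p : P) : F := S.R (G.nxt p)

/-- Circulations. -/
def Circ {M : Type} [Add M] (G : Sh P) (y : P → M) : Prop :=
  ∀ i, y i + y (G.op i) = y (G.nxt i) + y (G.nxt (G.op i))

/-- What is used of planarity: `κ` is the index of the faces. -/
structure Pl (G : Sh P) {F : Type} (S : FS G F) (κ : F → ℤ) : Prop where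
  cross : ∀ i, G.op i ≠ i
  conn : ∀ C : P → Prop, (∃ i, C i) → (∀ i, C (G.nxt i) ↔ C i) → (∀ i, C (G.op i) ↔ C i) → ∀ i, C i
  ne : Nonempty P
  idx : ∀ i, κ (S.R i) = κ (S.L i) + 1
  homZ : ∀ y : P → ℤ, Circ G y → ∃ h : F → ℤ, ∀ i, y i = h (S.L i) - h (S.R i)
  homC : ∀ y : P → ℂ, Circ G y → ∃ h : F → ℂ, ∀ i, y i = h (S.L i) - h (S.R i)
  card : Nat.card F = crossings G + 2
  surj : ∀ f, ∃ i, S.L i = f ∨ S.R i = f
  dual : ∀ C : F → Prop, (∃ f, C f) → (∀ i, C (S.L i) ↔ C (S.R i)) → ∀ f, C f

/-- The number of crossings with the north face `f`. -/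
noncomputable def kN (S : FS G F) (f : F) : ℕ := Nat.card {p : P // G.lf p = true ∧ S.No p = f}

/-- The number of crossings with the south face `f`. -/
noncomputable def kS (S : FS G F) (f : F) : ℕ := Nat.card {p : P // G.lf p = true ∧ S.So p = f}

/-! ### The reversed shadow -/

/-- The reversed shadow. -/
def rev (G : Sh P) : Sh P where
  nxt := G.nxt.symm
  op := G.op
  op_op := G.op_op
  lf := G.lf
  lf_op := G.lf_op

/-- The edge `i` of `rev G` is the edge `nxt i` of `G`, with exchanged sides. -/
def FS.rev (S : FS G F) : FS (rev G) F where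
  L i := S.R (G.nxt i)
  R i := S.L (G.nxt i)
  west p h := by
    show S.R (G.nxt (G.op p)) = S.R (G.nxt (G.nxt.symm p))
    rw [Equiv.apply_symm_apply, S.east p h]
  east p h := by
    show S.L (G.nxt p) = S.L (G.nxt (G.nxt.symm (G.op p)))
    rw [Equiv.apply_symm_apply, S.west p h]
  south p h := by
    show S.L (G.nxt (G.op p)) = S.R (G.nxt p)
    rw [S.north p h]
  north p h := by
    show S.L (G.nxt (G.nxt.symm p)) = S.R (G.nxt (G.nxt.symm (G.op p)))
    rw [Equiv.apply_symm_apply, Equiv.apply_symm_apply, S.south p h]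

/-- Exchange positive and negative. -/
def flip : St → St
  | .pos => .neg
  | .neg => .pos
  | .smooth => .smooth

/-- The flipped diagram on the reversed shadow. -/
def revD (D : Dg G) : Dg (rev G) := ⟨fun i => flip (D.st i), fun i => by
  show flip (D.st (G.op i)) = flip (D.st i)
  rw [D.st_op]⟩

/-! ### The Dehn matrix -/

/-- The crossings. -/
abbrev Cr (G : Sh P) : Type := {p : P // G.lf p = true}

/-- The Dehn relation of the crossing of `p`, applied to the face function `c`. -/
noncomputable def row (S : FS G F) (s : ℂ) (D : Dg G) (p : P) (c : F → ℂ) : ℂ :=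
  match D.st p with
  | .pos => s⁻¹ * c (S.No p) + s * c (S.So p) - c (S.We p) - c (S.Ea p)
  | .neg => s * c (S.No p) + s⁻¹ * c (S.So p) - c (S.We p) - c (S.Ea p)
  | .smooth => c (S.No p) - c (S.So p)

/-- The columns: all faces except the two faces of the edge `b`, numbered by the crossings. -/
structure Col (S : FS G F) (b : P) (φ : Cr G → F) : Prop where
  inj : Function.Injective φ
  mem : ∀ f, (∃ q, φ q = f) ↔ f ≠ S.L b ∧ f ≠ S.R b

open Classical in
/-- The Dehn matrix. -/
noncomputable def Mx (S : FS G F) (s : ℂ) (D : Dg G) (φ : Cr G → F) : Matrix (Cr G) (Cr G) ℂ :=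
  Matrix.of fun p q => row S s D p (fun f => if f = φ q then 1 else 0)

/-- The writhe of the descending knot diagrams. -/
noncomputable def al [Fintype P] (S : FS G F) (κ : F → ℤ) (φ : Cr G → F) : ℤ :=
  ∑ q : Cr G, κ (φ q) - ∑ q : Cr G, κ (S.So q)

/-- The relation of a positive crossing, multiplied by `s`. -/
def prow (S : FS G F) (s : ℂ) (p : P) (c : F → ℂ) : ℂ :=
  c (S.No p) + s ^ 2 * c (S.So p) - s * (c (S.We p) + c (S.Ea p))

open Classical in
/-- The matrix of these relations. -/
noncomputable def Mp (S : FS G F) (s : ℂ) (φ : Cr G → F) : Matrix (Cr G) (Cr G) ℂ :=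
  Matrix.of fun p q => prow S s p (fun f => if f = φ q then 1 else 0)

open Classical in
/-- The Dehn determinant. -/
noncomputable def dM [Fintype P] (S : FS G F) (s : ℂ) (D : Dg G) (φ : Cr G → F) : ℂ := (Mx S s D φ).det

open Classical in
/-- The determinant of `Mp`. -/
noncomputable def dP [Fintype P] (S : FS G F) (s : ℂ) (φ : Cr G → F) : ℂ := (Mp S s φ).det

/-! ### Time decompositions -/

/-- The crossings are read in the order `x 0, x 1, ..., x (m - 1)`, the current edges have labels; the labels stay on their side (they follow the Seifert circles). The edges `e 0 v` are cut;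
every other edge comes after its tail and before its head. -/
structure TD (G : Sh P) (n : ℕ) where
  m : ℕ
  x : ℕ → P
  a : ℕ → Fin n
  b : ℕ → Fin n
  e : ℕ → Fin n → P
  cl : Equiv.Perm (Fin n)
  lf : ∀ t < m, G.lf (x t) = true
  inj : ∀ t < m, ∀ t' < m, x t = x t' → t = t'
  sur : ∀ p, G.lf p = true → ∃ t < m, x t = p
  ea : ∀ t < m, e t (a t) = G.op (x t)
  eb : ∀ t < m, e t (b t) = x t
  ea' : ∀ t < m, e (t + 1) (a t) = G.nxt (x t)
  eb' : ∀ t < m, e (t + 1) (b t) = G.nxt (G.op (x t))
  eo : ∀ t < m, ∀ v, v ≠ a t → v ≠ b t → e (t + 1) v = e t v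
  e0 : Function.Injective (e 0)
  ec : ∀ v, e m v = e 0 (cl v)

variable {n : ℕ}

/-- The face `f` is regular: no cut edge has it on a side, and it is the north face of exactly one crossing. -/
def Rg (S : FS G F) (T : TD G n) (f : F) : Prop :=
  (∃! t, t < T.m ∧ S.No (T.x t) = f) ∧ ∀ v, S.L (T.e 0 v) ≠ f ∧ S.R (T.e 0 v) ≠ f

/-- `N` intervals of time. In each interval the labels have different positions `< B`; every crossing of the interval is between neighbours, all neighbours cross in the interval.
If the interval is longer than one crossing, the north faces of its crossings are regular. -/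
structure Iv (S : FS G F) (T : TD G n) (N B : ℕ) where
  τ : ℕ → ℕ
  pos : ℕ → Fin n → ℕ
  τ0 : τ 0 = 0
  τN : τ N = T.m
  mono : ∀ j < N, τ j ≤ τ (j + 1)
  inj : ∀ j < N, Function.Injective (pos j)
  lt : ∀ j < N, ∀ v, pos j v < B
  adj : ∀ j < N, ∀ t, τ j ≤ t → t < τ (j + 1) → pos j (T.b t) = pos j (T.a t) + 1
  sep : ∀ j < N, ∀ v w, pos j w = pos j v + 1 → ∃ t, τ j ≤ t ∧ t < τ (j + 1) ∧ T.a t = v ∧ T.b t = w
  one : ∀ j < N, (∀ t, τ j ≤ t → t < τ (j + 1) → Rg S T (S.No (T.x t))) ∨ τ (j + 1) = τ j + 1

/-- Every set of labels which is closed under crossing and closing is everything. -/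
def TD.Con (T : TD G n) : Prop :=
  ∀ A : Fin n → Prop, (∃ v, A v) → (∀ t < T.m, A (T.a t) ↔ A (T.b t)) → (∀ v, A (T.cl v) ↔ A v) → ∀ v, A v

/-! ### The flow on labels -/

/-- One positive crossing with the left label `q.1` and the right label `q.2` acts on the flow. -/
def stp {R : Type} [CommRing R] (t : R) (q : Fin n × Fin n) (u : Fin n → R) : Fin n → R := fun v =>
  if v = q.2 then t * u q.1 else if v = q.1 then u q.2 + (1 - t) * u q.1 else u v

/-- A word of crossings acts, the first letter first. -/
def rn {R : Type} [CommRing R] (t : R) (w : List (Fin n × Fin n)) (u : Fin n → R) : Fin n → R :=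
  w.foldl (fun u q => stp t q u) u

/-- The determinant of the closed word. -/
def wd {R : Type} [CommRing R] (t : R) (cl : Equiv.Perm (Fin n)) (o : Fin n) (w : List (Fin n × Fin n)) : R :=
  (1 - (Matrix.of fun v v' => rn t w (Pi.single v 1) (cl.symm v')) + Matrix.single o o 1 : Matrix (Fin n) (Fin n) R).det

/-- The word of a time decomposition. -/
def TD.word (T : TD G n) : List (Fin n × Fin n) := (List.range T.m).map fun t => (T.a t, T.b t)

/-- `s = exp (-(x + i y))` -/
noncomputable def ss (x y : ℝ) : ℂ := Complex.exp (-((x : ℂ) + y * Complex.I))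

/-! ### Hypotheses shared by the analytic leaves -/

/-- All data of a planar shadow with bounded complexity `K`; `b` is the base edge, with the label `o`. -/
structure Dat (G : Sh P) (S : FS G F) (κ : F → ℤ) (b : P) (K n N B : ℕ) (T : TD G n) (o : Fin n) : Prop where
  pl : Pl G S κ
  iv : Nonempty (Iv S T N B)
  base : T.e 0 o = b
  hn : n ≤ K
  hN : N ≤ K
  hB : B ≤ K

end Pool.Agent.Helper43.PD
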