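import Pool.Agent.Helper43.PD.Rec
import Pool.Agent.Helper77.EV2.Bound

/-!
# EV3: the leaves, with `sorry`. Owners prove the same statement in their own file (importing `Rec`, not `Stubs`).
-/

set_option autoImplicit false

namespace Pool.Agent.Helper43.PD.Stubs

open Polynomial Pool.Agent.Helper85.Exp Pool.Agent.Helper60.EV2 Pool.Agent.Helper43.PD

variable {P : Type} {G : Sh P} {F : Type} {S : FS G F} {κ : F → ℤ}

/-! ### A: faces and homology -/

/-- A0 -/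
theorem card_P [Fintype P] (h : ∀ i, G.op i ≠ i) : Fintype.card P = 2 * crossings G := by
  sorry

/-- A1 -/
theorem std_dual [Fintype P] (h : Planar G) (C : Face G → Prop) (h0 : ∃ f, C f)
    (hC : ∀ i, C ((std G).L i) ↔ C ((std G).R i)) : ∀ f, C f := by
  sorry

/-- A2: homology over a field (dimension count) -/
theorem std_hom [Fintype P] (h : Planar G) {K : Type} [Field K] (y : P → K) (hy : Circ G y) :
    ∃ u : Face G → K, ∀ i, y i = u ((std G).L i) - u ((std G).R i) := by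
  sorry

/-- A3: everything (homology over ℤ from A2 over ℚ and A1; the index from the constant circulation) -/
theorem exists_pl [Fintype P] (h : Planar G) : ∃ κ : Face G → ℤ, Pl G (std G) κ := by
  sorry

/-! ### B: the Dehn matrix, Whitney's formula, existence -/

/-- B0 -/
theorem exists_col [Fintype P] (h : Pl G S κ) (b : P) : ∃ φ : Cr G → F, Col S b φ := by
  sorry

/-- B1: the walk determinant and the Dehn determinant, for all statuses -/
theorem dehn [Fintype P] [DecidableEq P] (h : Pl G S κ) {b : P} {φ : Cr G → F} (hφ : Col S b φ) :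
    ∃ c : ℂ, c ≠ 0 ∧ ∀ (D : Dg G) (s : ℂ), s ≠ 0 →
      Pool.Agent.Helper60.EV2.W G.nxt G.op (kd s s⁻¹ D) b = c * s ^ (wr D - al S κ φ) * dM S s D φ := by
  sorry

/-- B2: a one-component diagram exists -/
theorem exists_knot [Fintype P] (h : Pl G S κ) (b : P) : ∃ D : Dg G, ∀ i, ∃ k : ℕ, D.tr^[k] b = i := by
  sorry

/-- B3: surjectivity over the integers -/
theorem det_one [Fintype P] (h : Pl G S κ) {b : P} {φ : Cr G → F} (hφ : Col S b φ) (D : Dg G)
    (hD : ∀ i, ∃ k : ℕ, D.tr^[k] b = i) : ‖dM S 1 D φ‖ = 1 := by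
  sorry

/-- B4: the walk determinant at `s = 1` -/
theorem W_one [Fintype P] [DecidableEq P] (h : Pl G S κ) {b : P} (D : Dg G)
    (hD : ∀ i, ∃ k : ℕ, D.tr^[k] b = i) : Pool.Agent.Helper60.EV2.W G.nxt G.op (kd (1 : ℂ) 1 D) b = 1 := by
  sorry

/-- B5: the reversed shadow -/
theorem pl_rev (h : Pl G S κ) : Pl (rev G) S.rev (fun f => -κ f) := by
  sorry

/-- B6: the reversed diagram of a descending one-component diagram is descending; the writhe -/
theorem rev_des [Fintype P] (h : Pl G S κ) {b : P} (D : Dg G) (h1 : ∀ i, ∃ k : ℕ, D.tr^[k] b = i) (h2 : Des D b) :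
    (∀ i, ∃ k : ℕ, (revD D).tr^[k] (G.nxt.symm b) = i) ∧ Des (revD D) (G.nxt.symm b) ∧ wr (revD D) = -wr D := by
  sorry

/-- B7: Whitney's formula (from B1 for `G` and for `rev G`, B5, B6 and `F_knot`) -/
theorem whitney [Fintype P] (h : Pl G S κ) {b : P} {φ : Cr G → F} (hφ : Col S b φ) (D : Dg G)
    (h1 : ∀ i, ∃ k : ℕ, D.tr^[k] b = i) (h2 : Des D b) : wr D = al S κ φ := by
  sorry

/-- B8: existence (`exists_cs` with the index `κ (L i)`) -/
theorem exists_conway [Fintype P] (h : Pl G S κ) : ∃ nab : Dg G → ℤ[X], Cs nab := by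
  sorry

/-- B9: the formula for the positive diagram -/
theorem form [Fintype P] [DecidableEq P] (h : Pl G S κ) {b : P} {φ : Cr G → F} (hφ : Col S b φ) {nab : Dg G → ℤ[X]} (hn : Cs nab)
    {s : ℂ} (hs : s ≠ 0) : aeval (s⁻¹ - s) (nab (allPos G)) =
      s ^ (al S κ φ - crossings G) * Pool.Agent.Helper60.EV2.W G.nxt G.op (kd s s⁻¹ (allPos G)) b := by
  sorry

/-- B10: the same with the Dehn determinant -/
theorem form_norm [Fintype P] (h : Pl G S κ) {b : P} {φ : Cr G → F} (hφ : Col S b φ) {nab : Dg G → ℤ[X]} (hn : Cs nab)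
    {s : ℂ} (hs : s ≠ 0) : ‖s‖ ^ crossings G * ‖aeval (s⁻¹ - s) (nab (allPos G))‖ = ‖dP S s φ‖ := by
  sorry

/-- B11 -/
theorem wr_allPos [Fintype P] (h : ∀ i, G.op i ≠ i) : wr (allPos G) = crossings G := by
  sorry

/-- B12: signs, degree, parity (helper85's Exp) -/
theorem nab_nn [Fintype P] (h : Pl G S κ) {nab : Dg G → ℤ[X]} (hn : Cs nab) :
    (∀ k, 0 ≤ (nab (allPos G)).coeff k) ∧ (nab (allPos G)).natDegree ≤ crossings G ∧
      ∀ j k, (nab (allPos G)).coeff j ≠ 0 → (nab (allPos G)).coeff k ≠ 0 → j % 2 = k % 2 := by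
  sorry

/-! ### C: counting, the cut, the time decomposition -/

/-- C1: every face has as many south corners as north corners -/
theorem kS_eq [Fintype P] (h : ∀ i, G.op i ≠ i) (S : FS G F) (f : F) : kS S f = kN S f := by
  sorry

/-- C2 -/
theorem sum_kN [Fintype P] [Fintype F] (h : Pl G S κ) : ∑ f, kN S f = crossings G := by
  sorry

/-- C3: faces without north corner are bounded by Seifert circles -/
theorem card_pure [Fintype P] (h : Pl G S κ) : Nat.card {f : F // kN S f = 0} ≤ 2 * circles G := by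
  sorry

/-- C4: few faces, few crossings with a number of north corners different from one (from C2, C3) -/
theorem card_odd [Fintype P] (h : Pl G S κ) : Nat.card {f : F // kN S f ≠ 1} ≤ 4 * circles G ∧
    Nat.card {p : P // G.lf p = true ∧ kN S (S.No p) ≠ 1} ≤ 4 * circles G := by
  sorry

/-- C5: the index takes few values -/
theorem range_idx [Fintype P] (h : Pl G S κ) : (Set.range fun i => κ (S.L i)).ncard ≤ circles G ∧
    ∃ k₀ : ℤ, ∀ f, k₀ ≤ κ f ∧ κ f ≤ k₀ + circles G := by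
  sorry

/-- C6 (from C1 - C5) -/
theorem al_le [Fintype P] (h : Pl G S κ) {b : P} {φ : Cr G → F} (hφ : Col S b φ) :
    |al S κ φ| ≤ 4 * (circles G : ℤ) ^ 2 + 2 * circles G := by
  sorry

/-- C7: the cut (helper52) -/
theorem cut [Fintype P] (h : Pl G S κ) (b : P) : ∃ C : Finset P, b ∈ C ∧ C.card ≤ 4 * circles G ^ 3 + 1 ∧
    ∃ τ : P → ℕ, (∀ i, τ (G.op i) = τ i) ∧ ∀ i, G.nxt i ∉ C → τ i < τ (G.nxt i) := by
  sorry

/-- C8: the time decomposition -/
theorem exists_td [Fintype P] (h : ∀ i, G.op i ≠ i) {b : P} {C : Finset P} (hb : b ∈ C) {τ : P → ℕ}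
    (h1 : ∀ i, τ (G.op i) = τ i) (h2 : ∀ i, G.nxt i ∉ C → τ i < τ (G.nxt i)) :
    ∃ T : TD G C.card, Set.range (T.e 0) = (C : Set P) := by
  sorry

variable {n : ℕ}

/-- C9 -/
theorem td_m [Fintype P] (T : TD G n) : T.m = crossings G := by
  sorry

/-- C10: every edge enters a crossing and leaves a crossing; a label keeps an edge which is not cut until the edge enters its crossing -/
theorem td_edge [Fintype P] (h : ∀ i, G.op i ≠ i) (T : TD G n) (i : P) :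
    (∃ t < T.m, T.e t (T.a t) = i ∨ T.e t (T.b t) = i) ∧ (∃ t < T.m, T.e (t + 1) (T.a t) = i ∨ T.e (t + 1) (T.b t) = i) ∧
      ∀ t ≤ T.m, ∀ v, T.e t v = i → (∀ w, T.e 0 w ≠ i) → ∃ t' < T.m, t ≤ t' ∧ T.e t' v = i ∧ (T.a t' = v ∨ T.b t' = v) := by
  sorry

/-- C11 -/
theorem td_con [Fintype P] (h : Pl G S κ) (T : TD G n) : T.Con := by
  sorry

/-! ### D: the intervals -/

/-- D1: few crossings with an irregular north face -/
theorem card_special [Fintype P] (h : Pl G S κ) (T : TD G n) :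
    Nat.card {t : ℕ // t < T.m ∧ ¬ Rg S T (S.No (T.x t))} ≤ 4 * circles G + 2 * n := by
  sorry

/-- D2: between two crossings with the same left label and regular north faces the right label does not change, and conversely -/
theorem pair_eq (h : Pl G S κ) (T : TD G n) {t t' : ℕ} (h1 : t ≤ t') (h2 : t' < T.m)
    (hr : ∀ r, t ≤ r → r < t' → Rg S T (S.No (T.x r))) (he : T.a t = T.a t' ∨ T.b t = T.b t') :
    T.a t = T.a t' ∧ T.b t = T.b t' := by
  sorry

/-- D3: the heights of the labels -/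
theorem height (h : Pl G S κ) (T : TD G n) : (∀ t ≤ T.m, ∀ v, κ (S.L (T.e t v)) = κ (S.L (T.e 0 v))) ∧
    ∀ t < T.m, κ (S.L (T.e 0 (T.b t))) = κ (S.L (T.e 0 (T.a t))) + 1 := by
  sorry

/-- D4: positions for a partial injection without cycles -/
theorem exists_pos (n : ℕ) (ρ : Fin n → Fin n → Prop) (ht : Fin n → ℤ) (h1 : ∀ v w w', ρ v w → ρ v w' → w = w')
    (h2 : ∀ v v' w, ρ v w → ρ v' w → v = v') (h3 : ∀ v w, ρ v w → ht w = ht v + 1) :
    ∃ pos : Fin n → ℕ, Function.Injective pos ∧ (∀ v, pos v < (n + 1) ^ 2) ∧ ∀ v w, pos w = pos v + 1 ↔ ρ v w := by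
  sorry

/-- D5: the intervals (from D1 - D4) -/
theorem exists_iv [Fintype P] (h : Pl G S κ) (T : TD G n) : ∃ N ≤ 2 * (4 * circles G + 2 * n) + 1,
    Nonempty (Iv S T N ((n + 1) ^ 2)) := by
  sorry

/-! ### E: the estimates for the matrix `Mp` -/

/-- E0: irregular faces border edges at the ends of the intervals -/
theorem irr_bdry [Fintype P] (h : Pl G S κ) {T : TD G n} {N B : ℕ} (I : Iv S T N B) {f : F} (hf : ¬ Rg S T f) :
    ∃ j ≤ N, ∃ v, S.L (T.e (I.τ j) v) = f ∨ S.R (T.e (I.τ j) v) = f := by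
  sorry

/-- E1: upper bounds at the ends of the intervals -/
theorem up {T : TD G n} {N B : ℕ} (I : Iv S T N B) {s : ℂ} {K0 M : ℝ} (hK : 1 ≤ K0)
    (hR : Pool.Agent.Helper77.EV2.RunBd s B K0) (c : F → ℂ) (hM : ∀ f, ¬ Rg S T f → ‖c f‖ ≤ M)
    (hr : ∀ t < T.m, Rg S T (S.No (T.x t)) → prow S s (T.x t) c = 0) :
    ∀ j ≤ N, ∀ v, ‖c (S.L (T.e (I.τ j) v))‖ ≤ K0 ^ j * M ∧ ‖c (S.R (T.e (I.τ j) v))‖ ≤ K0 ^ j * M := by
  sorry

/-- E2: the network theorem -/
theorem low (K : ℕ) (Φ : ℝ) (hΦ : 0 < Φ) : ∃ th : ℝ, 0 < th ∧ ∃ C : ℝ, 0 < C ∧ ∀ x y : ℝ, 0 < x → x ≤ Φ → |y| ≤ th →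
    ∀ {P : Type} {G : Sh P} {F : Type} {S : FS G F} {n N B : ℕ} {T : TD G n} (I : Iv S T N B), n ≤ K → N ≤ K → B ≤ K →
      T.Con → ∀ (c : F → ℂ) (o : Fin n) (E : ℝ), ‖c (S.L (T.e 0 o))‖ ≤ E → ‖c (S.R (T.e 0 o))‖ ≤ E →
      (∀ t < T.m, Rg S T (S.No (T.x t)) → prow S (ss x y) (T.x t) c = 0) →
      (∀ t < T.m, ‖prow S (ss x y) (T.x t) c‖ ≤ E) →
      ∀ j ≤ N, ∀ v, ‖c (S.L (T.e (I.τ j) v))‖ ≤ C / x * E ∧ ‖c (S.R (T.e (I.τ j) v))‖ ≤ C / x * E := by
  sorry

/-- E3: the norm of the determinant does not depend on the order of the columns -/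
theorem det_col [Fintype P] {b : P} {φ φ' : Cr G → F} (hφ : Col S b φ) (hφ' : Col S b φ') (s : ℂ) :
    ‖dP S s φ‖ = ‖dP S s φ'‖ := by
  sorry

/-- E4: columns in which every regular face is numbered by its crossing -/
theorem exists_col_reg [Fintype P] (h : Pl G S κ) {T : TD G n} {o : Fin n} {b : P} (hb : T.e 0 o = b) :
    ∃ φ : Cr G → F, Col S b φ ∧ ∀ p : Cr G, Rg S T (S.No p) → φ p = S.No p := by
  sorry

/-- E5: the lower bound and the upper bound for `Mp` (macro_bounds, E0 - E4) -/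
theorem det_h1 (K : ℕ) (Φ : ℝ) (hΦ : 0 < Φ) : ∃ th : ℝ, 0 < th ∧ ∃ a : ℕ, ∃ c : ℝ, 0 < c ∧ ∃ C : ℝ,
    ∀ {P : Type} [Fintype P] {G : Sh P} {F : Type} {S : FS G F} {κ : F → ℤ} {b : P} {n N B : ℕ} {T : TD G n} {o : Fin n},
      Dat G S κ b K n N B T o → ∀ φ : Cr G → F, Col S b φ → ∀ x y : ℝ, 0 < x → x ≤ Φ → |y| ≤ th →
        c * x ^ a ≤ ‖dP S (ss x y) φ‖ ∧ ‖dP S (ss x y) φ‖ ≤ C := by
  sorry

/-- E6: the upper bound near zero -/
theorem det_h4 (K : ℕ) : ∃ C : ℝ,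
    ∀ {P : Type} [Fintype P] {G : Sh P} {F : Type} {S : FS G F} {κ : F → ℤ} {b : P} {n N B : ℕ} {T : TD G n} {o : Fin n},
      Dat G S κ b K n N B T o → ∀ φ : Cr G → F, Col S b φ → ∀ s : ℂ, ‖s‖ ^ 2 + 2 * ‖s‖ ≤ 1 → ‖dP S s φ‖ ≤ C := by
  sorry

/-! ### H: the tail bound -/

/-- H1: the walk determinant is the determinant of the closed word (`det_schur`) -/
theorem W_word [Fintype P] [DecidableEq P] (h : ∀ i, G.op i ≠ i) (T : TD G n) (o : Fin n) {s : ℂ} (hs : s ≠ 0) :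
    Pool.Agent.Helper60.EV2.W G.nxt G.op (kd s s⁻¹ (allPos G)) (T.e 0 o) = wd (s ^ 2) T.cl o T.word := by
  sorry

/-- H2: commutation -/
theorem wd_comm {R : Type} [CommRing R] (t : R) (cl : Equiv.Perm (Fin n)) (o : Fin n) (x y : List (Fin n × Fin n))
    (v v' w w' : Fin n) (h1 : v ≠ w) (h2 : v ≠ w') (h3 : v' ≠ w) (h4 : v' ≠ w') :
    wd t cl o (x ++ (v, v') :: (w, w') :: y) = wd t cl o (x ++ (w, w') :: (v, v') :: y) := by
  sorry

/-- H3: the braid relation -/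
theorem wd_braid {R : Type} [CommRing R] (t : R) (cl : Equiv.Perm (Fin n)) (o : Fin n) (x y : List (Fin n × Fin n))
    (v w u : Fin n) (h1 : v ≠ w) (h2 : w ≠ u) (h3 : v ≠ u) :
    wd t cl o (x ++ (v, w) :: (w, u) :: (v, w) :: y) = wd t cl o (x ++ (w, u) :: (v, w) :: (w, u) :: y) := by
  sorry

/-- H4: the quadratic relation -/
theorem wd_quad {R : Type} [CommRing R] (t : R) (cl : Equiv.Perm (Fin n)) (o : Fin n) (x y : List (Fin n × Fin n))
    (v w : Fin n) (h : v ≠ w) :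
    wd t cl o (x ++ (v, w) :: (v, w) :: y) = t * wd t cl o (x ++ y) + (1 - t) * wd t cl o (x ++ (v, w) :: y) := by
  sorry

/-- H5: short words -/
theorem wd_short (K L : ℕ) (ρ : ℝ) (hρ : 0 < ρ) : ∃ M : ℝ, ∀ n ≤ K, ∀ (cl : Equiv.Perm (Fin n)) (o : Fin n)
    (w : List (Fin n × Fin n)), w.length ≤ L → ∀ s : ℂ, ρ ≤ ‖s‖ → ‖s‖ ≤ 1 → ∀ q : ℤ, |q| ≤ K →
      ‖s ^ (q - w.length) * wd (s ^ 2) cl o w‖ ≤ M := by
  sorry

/-- H6: the tail bound for words with intervals (multi_tail, H2 - H5; slots = intervals, a letter `i` of the slot `j` is the pair of labels at the positions `i`, `i + 1`) -/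
theorem word_tail (K : ℕ) (r₀ R : ℝ) (hr₀ : 0 < r₀) : ∃ c : ℝ, 0 < c ∧ ∃ C : ℝ,
    ∀ {P : Type} {G : Sh P} {F : Type} {S : FS G F} {n N B : ℕ} {T : TD G n}, Iv S T N B → n ≤ K → N ≤ K → B ≤ K →
      ∀ o : Fin n, ∀ q : ℤ, |q| ≤ K → ∀ s : ℂ, s ≠ 0 → ‖s‖ ≤ 1 → r₀ ≤ ‖s⁻¹ - s‖ → ‖s⁻¹ - s‖ ≤ R →
        ∀ a : ℝ, 0 < a → a ^ 2 = ‖s⁻¹ - s‖ * a + 1 →
          ‖s ^ (q - T.m) * wd (s ^ 2) T.cl o T.word‖ ≤
            C * a ^ T.m * Real.exp (-(c * T.m * (1 - Real.cos (2 * (s⁻¹ - s).arg)))) := by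
  sorry

/-! ### Z: the end -/

/-- Z1: the data of a planar shadow (from A3, C5 - C8, D5) -/
theorem exists_dat (s : ℕ) : ∃ K : ℕ, ∀ {P : Type} [Fintype P] {G : Sh P}, Planar G → circles G ≤ s → ∃ (κ : Face G → ℤ) (b : P)
    (φ : Cr G → Face G) (n N B : ℕ) (T : TD G n) (o : Fin n), Dat G (std G) κ b K n N B T o ∧ Col (std G) b φ ∧
      |al (std G) κ φ| ≤ K := by
  sorry

/-- Z2: the final inequality (from everything and `Helper57.EV2.ev2`) -/
theorem final (s : ℕ) : ∃ m₀ : ℕ, ∀ {P : Type} [Fintype P] (G : Sh P), Planar G → circles G ≤ s → m₀ ≤ crossings G →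
    ∀ nab : Dg G → ℤ[X], Cs nab → ∀ j : ℕ,
      (nab (allPos G)).coeff j * (nab (allPos G)).coeff (j + 4) ≤ (nab (allPos G)).coeff (j + 2) ^ 2 := by
  sorry

end Pool.Agent.Helper43.PD.Stubs
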